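import Pool.Agent.H491R3.GB.Final

set_option autoImplicit false

/-!
# MP_92f640_nt: the lower bound of Q1 for almost all moduli, and for all small moduli

For every `A` there are a threshold `x₀` and ONE set `B` of moduli, independent of `x`, with at most
`X / (log X)^A` elements up to `X` for every `X ≥ 2`, such that for all real `x ≥ x₀` and all
`1 ≤ q ≤ x / 4` which lie outside `B` or satisfy `q ≤ (log x)^A`, all but at most
`x / (q (log x)^A)` of the even multiples `n` of `q` in `(x/2, x]` have `g(n) ≥ n / (2 log² n)`.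
-/

namespace Pool.Agent.Results.MP_92f640_nt.AlmostAllModuli

open Finset

/-- `g n`, the number of ordered representations of `n` as a sum of two primes. -/
def g (n : ℕ) : ℕ := ((range (n + 1)).filter (fun p : ℕ => p.Prime ∧ (n - p).Prime)).card

/-- The number of the even multiples `n` of `q` in `(x/2, x]` with `g n < c n / log² n`. -/
noncomputable def exceptions (c x : ℝ) (q : ℕ) : ℕ :=
  ((Icc 1 ⌊x⌋₊).filter (fun n : ℕ => x / 2 < (n : ℝ) ∧ Even n ∧ q ∣ n ∧
    (g n : ℝ) < c * (n : ℝ) / (Real.log (n : ℝ)) ^ 2)).card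

theorem result (A : ℕ) : ∃ (x₀ : ℝ) (B : Set ℕ),
    (∀ X : ℝ, 2 ≤ X → {q | q ∈ B ∧ (q : ℝ) ≤ X}.Finite ∧
      ({q | q ∈ B ∧ (q : ℝ) ≤ X}.ncard : ℝ) ≤ X / Real.log X ^ A) ∧
    ∀ x : ℝ, x₀ ≤ x → ∀ q : ℕ, 0 < q → (q : ℝ) ≤ x / 4 →
      (q ∉ B ∨ (q : ℝ) ≤ Real.log x ^ A) →
      (exceptions (1 / 2) x q : ℝ) ≤ x / (q * Real.log x ^ A) :=
  H491R3.GB.main A

end Pool.Agent.Results.MP_92f640_nt.AlmostAllModuli
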